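import Pool.Agent.Lib.MP_524519_ag.DU5.LNK.Iface

/-! # DU5, chapter LNK, module LNK: the assembly -/

set_option autoImplicit false

namespace Pool.Agent.DU5.LNK

open MvPowerSeries

theorem good_mono78 {K : Type} [Field K] {a b : ℕ} (hab : a ≤ b) (h : PC.Good K b) :
    PC.Good K a := by
  refine ⟨fun h0 => h.fac ?_, fun q hq hd => h.splits q hq (hd.trans hab)⟩
  obtain ⟨c, hc⟩ := Nat.factorial_dvd_factorial hab
  rw [hc, Nat.cast_mul, h0, zero_mul]

theorem self_mem78 {k : Type} [Field k] (p : ℕ) (f : O k 3) (j : ℕ) : f ∈ IS p f j := by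
  intro K _ _ D x _ _ _ hf
  refine ⟨0, fun i => ?_⟩
  rw [hf]; ring

theorem floor_add78 {p : ℕ} (hp : 0 < p) (i j n c : ℕ) (h : c * p ≤ i + j) :
    c * n ≤ i * n / p + j * n / p + 1 := by
  have h1 : i * n < (i * n / p + 1) * p := by
    rw [mul_comm (i * n / p + 1)]
    exact Nat.lt_mul_div_succ _ hp
  have h2 : j * n < (j * n / p + 1) * p := by
    rw [mul_comm (j * n / p + 1)]
    exact Nat.lt_mul_div_succ _ hp
  have h3 : c * p * n ≤ (i + j) * n := Nat.mul_le_mul_right n h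
  have h4 : c * n * p < (i * n / p + j * n / p + 2) * p := by
    calc c * n * p = c * p * n := by ring
      _ ≤ i * n + j * n := by rw [← add_mul]; exact h3
      _ < (i * n / p + 1) * p + (j * n / p + 1) * p := Nat.add_lt_add h1 h2
      _ = (i * n / p + j * n / p + 2) * p := by ring
  have h5 := Nat.lt_of_mul_lt_mul_right h4
  omega

/-- LNK: the plane curve `φ = 0`. -/
theorem lnk (pc2 : Pc2Statement) (suk : SukStatement) (ark : ArkStatement) (tyk : TykStatement)
    (vbk : VbkStatement) : LNKStatement := by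
  intro p hpp k _ _ _ F _ _ D lam hpen d m f hd1 hdp hR hlen
  have hp0 : 0 < p := hpp.out.pos
  have hgood : PC.Good F d := good_mono78 (by omega) hpen.good
  obtain ⟨-, hev, hy, -, hreg⟩ := suk k F lam
  obtain ⟨n, hn, hnF, η, hη, hφ, hE, hrest⟩ := pc2 F d (by omega) hgood (rs lam f) (hreg d f hR)
  have hη0 : ∀ i, PowerSeries.constantCoeff (η i) = 0 := by
    intro i
    have := ((ark k F D lam hpen.one n (η i) hn (hη i)).1 0)
    simpa [arc] using this
  have hf : ∀ i, ev (arc lam n (η i)) f = 0 := fun i => by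
    rw [hev n (η i) hn (hη0 i), hφ i]
  have hF : ∀ i, PC.ev n (η i) (pderiv F 1 (rs lam f)) =
      ev (arc lam n (η i)) (pderiv k 0 f) := fun i => by
    rw [hy, hev n (η i) hn (hη0 i)]
  have hvb : ∀ i, (PC.ev n (η i) (pderiv F 1 (rs lam f))).order ≤ (n * (m + 1) : ℕ) := fun i => by
    rw [hF i]
    exact vbk k F D lam hpen.one f m hlen n (η i) hn hnF (hη i) (hf i)
  have hne : ∀ i, PC.ev n (η i) (pderiv F 1 (rs lam f)) ≠ 0 := fun i h0 => by
    have h1 := hvb i
    rw [h0, PowerSeries.order_zero] at h1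
    exact ENat.natCast_ne_top _ (top_le_iff.1 h1)
  obtain ⟨hfin, hdual⟩ := hrest hne
  have hEE : EE lam f = Module.length F (PC.R2 F ⧸ Ideal.span {rs lam f, pderiv F 1 (rs lam f)}) :=
    rfl
  have hmem : ∀ j, rs lam f ∈ Ideal.span (rs lam '' (IS p f j : Set (O k 3))) := fun j =>
    Ideal.subset_span ⟨f, self_mem78 p f j, rfl⟩
  have hsup : ∀ j, Ideal.span (rs lam '' (IS p f j : Set (O k 3))) ⊔ Ideal.span {rs lam f} =
      Ideal.span (rs lam '' (IS p f j : Set (O k 3))) := fun j =>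
    sup_eq_left.2 ((Ideal.span_singleton_le_iff_mem _).2 (hmem j))
  have hty : ∀ j, ∀ g ∈ Ideal.span (rs lam '' (IS p f j : Set (O k 3))), ∀ i,
      PowerSeries.X ^ (j * n / p + 1) * PC.ev n (η i) (pderiv F 1 (rs lam f)) ∣
        PowerSeries.X ^ (2 * n) * PC.ev n (η i) g := fun j g hg i =>
    tyk p k F D lam ⟨hpen.nil, ⟨lam, hpen.one⟩⟩ hpen.one f n (η i) hn hnF (hη i) (hf i) j g hg
  have hDN : ∀ j, DN lam p f j =
      Module.length F (PC.R2 F ⧸ Ideal.span (rs lam '' (IS p f j : Set (O k 3)))) := fun j => rfl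
  refine ⟨?_, ?_, ?_⟩
  · rw [hEE]
    have h1 : (n : ℕ∞) * Module.length F
        (PC.R2 F ⧸ Ideal.span {rs lam f, pderiv F 1 (rs lam f)}) ≤ (n : ℕ∞) * (d * (m + 1) : ℕ) := by
      refine hE.trans ?_
      calc ∑ i, (PC.ev n (η i) (pderiv F 1 (rs lam f))).order
          ≤ ∑ _i : Fin d, ((n * (m + 1) : ℕ) : ℕ∞) := Finset.sum_le_sum fun i _ => hvb i
        _ = (n : ℕ∞) * (d * (m + 1) : ℕ) := by
            rw [Finset.sum_const, Finset.card_univ, Fintype.card_fin, nsmul_eq_mul]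
            push_cast; ring
    obtain ⟨L, hL⟩ := ENat.ne_top_iff_exists.1 hfin
    rw [← hL] at h1 ⊢
    have h2 : n * L ≤ n * (d * (m + 1)) := by exact_mod_cast h1
    have h3 : L ≤ d * (m + 1) := Nat.le_of_mul_le_mul_left h2 (Nat.pos_of_ne_zero hn)
    exact_mod_cast h3
  · intro i j hij
    have h := (hdual (i * n / p) (j * n / p) _ _ (hty i) (hty j)).1
      (floor_add78 hp0 i j n 3 (by omega))
    rw [hsup i, hsup j] at h
    rw [hEE, hDN i, hDN j]
    exact h
  · have hT : 2 * p * n / p = 2 * n := by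
      rw [show 2 * p * n = (2 * n) * p by ring, Nat.mul_div_cancel _ hp0]
    have h := (hdual (2 * p * n / p) (2 * p * n / p) _ _ (hty (2 * p)) (hty (2 * p))).2
      (by rw [hT]; omega)
    rw [hsup (2 * p)] at h
    rw [hEE, hDN (2 * p), two_mul]
    exact h

end Pool.Agent.DU5.LNK
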